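import Pool.Agent.Helper82_NIB.Stmts

/-!
# NPHI: values of the square roots
-/

set_option autoImplicit false
set_option linter.unusedSectionVars false

namespace Pool.Agent.NIB.H50

theorem sqrt_le_of_sq {x y : ℝ} (hy : 0 ≤ y) (h : x ≤ y ^ 2) : √x ≤ y :=
  Real.sqrt_le_iff.2 ⟨hy, h⟩

section

variable {n m t de : ℝ} (hn : 2 ≤ n) (hnm : n * m = 1) (ht0 : 0 < t) (ht : t ≤ m ^ 117)
  (de0 : 0 < de) (de1 : de ≤ 2 * t ^ 2)

include hn hnm

theorem m_pos : 0 < m := by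
  by_contra h
  have : n * m ≤ 0 := mul_nonpos_of_nonneg_of_nonpos (by linarith) (not_lt.1 h)
  linarith

theorem m_le : m ≤ 1 / 2 := by
  have h0 := m_pos hn hnm
  nlinarith

theorem m_pow_le (k : ℕ) : m ^ k ≤ (1 / 2) ^ k :=
  pow_le_pow_left₀ (m_pos hn hnm).le (m_le hn hnm) k

omit hn in
theorem nm_pow (a b : ℕ) : n ^ a * m ^ (a + b) = m ^ b := by
  rw [pow_add, ← mul_assoc, ← mul_pow, hnm, one_pow, one_mul]

omit hn in
theorem nm_pow' (a b : ℕ) : n ^ (a + b) * m ^ a = n ^ b := by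
  rw [pow_add, mul_comm (n ^ a), mul_assoc, ← mul_pow, hnm, one_pow, mul_one]

include ht0 ht de0 de1

theorem num1 : 9 * √(n ^ 2 * m ^ 60 * (de * (2 * m ^ 80 + 16 * (4 * m ^ 165)))) +
    16 * n ^ 2 * de * (n ^ 80 + 1) ≤ 20 * m ^ 69 * t + 33 * n ^ 82 * de := by
  have h0 := m_pos hn hnm
  have h1 : √(n ^ 2 * m ^ 60 * (de * (2 * m ^ 80 + 16 * (4 * m ^ 165)))) ≤ 20 / 9 * m ^ 69 * t := by
    refine sqrt_le_of_sq (by positivity) ?_
    have e1 : n ^ 2 * m ^ 60 = m ^ 58 := nm_pow hnm 2 58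
    rw [e1]
    have e2 : m ^ 58 * (de * (2 * m ^ 80 + 16 * (4 * m ^ 165))) =
        m ^ 138 * (de * (2 + 64 * m ^ 85)) := by ring
    have e3 : (20 / 9 * m ^ 69 * t) ^ 2 = m ^ 138 * (2 * t ^ 2 * (200 / 81)) := by ring
    rw [e2, e3]
    refine mul_le_mul_of_nonneg_left ?_ (by positivity)
    refine mul_le_mul de1 ?_ (by positivity) (by positivity)
    have h5 : m ^ 85 ≤ (1 / 2) ^ 8 :=
      (m_pow_le hn hnm 85).trans (pow_le_pow_of_le_one (by norm_num) (by norm_num) (by norm_num))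
    norm_num at h5 ⊢
    linarith
  have h2 : 16 * n ^ 2 * de * (n ^ 80 + 1) ≤ 33 * n ^ 82 * de := by
    have e1 : 33 * n ^ 82 * de - 16 * n ^ 2 * de * (n ^ 80 + 1) =
        n ^ 2 * de * (17 * n ^ 80 - 16) := by ring
    have h3 : (1 : ℝ) ≤ n ^ 80 := one_le_pow₀ (by linarith)
    have h4 : 0 ≤ n ^ 2 * de * (17 * n ^ 80 - 16) := mul_nonneg (by positivity) (by linarith)
    linarith
  linarith

theorem num2 : 9 * √(n ^ 2 * m ^ 60 * (de * (n ^ 80 + 4 * (4 * m ^ 165)))) +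
    8 * n ^ 2 * de * n ^ 80 ≤ 15 * n ^ 11 * t := by
  have h0 := m_pos hn hnm
  have h1 : √(n ^ 2 * m ^ 60 * (de * (n ^ 80 + 4 * (4 * m ^ 165)))) ≤ 14 / 9 * n ^ 11 * t := by
    refine sqrt_le_of_sq (by positivity) ?_
    have e1 : n ^ 2 * m ^ 60 = m ^ 58 := nm_pow hnm 2 58
    rw [e1]
    have e4 : n ^ 80 * m ^ 58 = n ^ 22 := nm_pow' hnm 58 22
    have e5 : n ^ 22 * m ^ (22 + 223) = m ^ 223 := nm_pow hnm 22 223
    have e2 : m ^ 58 * (de * (n ^ 80 + 4 * (4 * m ^ 165))) =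
        n ^ 22 * (de * (1 + 16 * m ^ 245)) := by
      calc m ^ 58 * (de * (n ^ 80 + 4 * (4 * m ^ 165))) =
          de * (n ^ 80 * m ^ 58 + 16 * m ^ 223) := by ring
        _ = de * (n ^ 22 + 16 * (n ^ 22 * m ^ (22 + 223))) := by rw [e4, e5]
        _ = _ := by ring
    have e3 : (14 / 9 * n ^ 11 * t) ^ 2 = n ^ 22 * (2 * t ^ 2 * (98 / 81)) := by ring
    rw [e2, e3]
    refine mul_le_mul_of_nonneg_left ?_ (by positivity)
    refine mul_le_mul de1 ?_ (by positivity) (by positivity)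
    have h5 : m ^ 245 ≤ (1 / 2) ^ 8 :=
      (m_pow_le hn hnm 245).trans (pow_le_pow_of_le_one (by norm_num) (by norm_num) (by norm_num))
    norm_num at h5 ⊢
    linarith
  have h2 : 8 * n ^ 2 * de * n ^ 80 ≤ n ^ 11 * t := by
    have h3 : t ^ 2 ≤ m ^ 117 * t := by
      rw [sq]; exact mul_le_mul_of_nonneg_right ht ht0.le
    have e1 : n ^ 82 * m ^ 117 = m ^ 35 := nm_pow hnm 82 35
    have h5 : m ^ 35 ≤ (1 / 2) ^ 4 :=
      (m_pow_le hn hnm 35).trans (pow_le_pow_of_le_one (by norm_num) (by norm_num) (by norm_num))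
    have h6 : (1 : ℝ) ≤ n ^ 11 := one_le_pow₀ (by linarith)
    calc 8 * n ^ 2 * de * n ^ 80 = 8 * n ^ 82 * de := by ring
      _ ≤ 8 * n ^ 82 * (2 * (m ^ 117 * t)) := by
        refine mul_le_mul_of_nonneg_left (de1.trans ?_) (by positivity)
        linarith
      _ = 16 * (n ^ 82 * m ^ 117) * t := by ring
      _ = 16 * m ^ 35 * t := by rw [e1]
      _ ≤ 1 * t := by
        refine mul_le_mul_of_nonneg_right ?_ ht0.le
        norm_num at h5 ⊢
        linarith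
      _ ≤ n ^ 11 * t := mul_le_mul_of_nonneg_right h6 ht0.le
  linarith

theorem num3 : 4 * (9 * √(n ^ 2)) * (m ^ 60 * √(m ^ 60) *
      √(de * (3 * √(n ^ 80) + 6 * m ^ 60 * n ^ 80 + 7)) + m ^ 60 * (2 * √(n ^ 2) * de * n ^ 80)) ≤
    90 * m ^ 69 * t + 72 * n ^ 22 * de := by
  have h0 := m_pos hn hnm
  have s1 : √(n ^ 2) = n := Real.sqrt_sq (by linarith)
  have s2 : √(m ^ 60) = m ^ 30 := by
    have : m ^ 60 = (m ^ 30) ^ 2 := by ring
    rw [this]; exact Real.sqrt_sq (by positivity)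
  have s3 : √(n ^ 80) = n ^ 40 := by
    have : n ^ 80 = (n ^ 40) ^ 2 := by ring
    rw [this]; exact Real.sqrt_sq (by positivity)
  have s4 : m ^ 60 * n ^ 80 = n ^ 20 := by rw [mul_comm]; exact nm_pow' hnm 60 20
  have h1 : √(de * (3 * n ^ 40 + 6 * n ^ 20 + 7)) ≤ 5 / 2 * n ^ 20 * t := by
    refine sqrt_le_of_sq (by positivity) ?_
    have e1 : n ^ 40 * m ^ 20 = n ^ 20 := nm_pow' hnm 20 20
    have e2 : n ^ 40 * m ^ 40 = 1 := by rw [← mul_pow, hnm, one_pow]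
    have e3 : de * (3 * n ^ 40 + 6 * n ^ 20 + 7) =
        n ^ 40 * (de * (3 + 6 * m ^ 20 + 7 * m ^ 40)) := by
      calc de * (3 * n ^ 40 + 6 * n ^ 20 + 7) =
          de * (3 * n ^ 40 + 6 * (n ^ 40 * m ^ 20) + 7 * (n ^ 40 * m ^ 40)) := by
            rw [e1, e2]; ring
        _ = _ := by ring
    have e4 : (5 / 2 * n ^ 20 * t) ^ 2 = n ^ 40 * (2 * t ^ 2 * (25 / 8)) := by ring
    rw [e3, e4]
    refine mul_le_mul_of_nonneg_left ?_ (by positivity)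
    refine mul_le_mul de1 ?_ (by positivity) (by positivity)
    have h5 : m ^ 20 ≤ (1 / 2) ^ 8 :=
      (m_pow_le hn hnm 20).trans (pow_le_pow_of_le_one (by norm_num) (by norm_num) (by norm_num))
    have h6 : m ^ 40 ≤ (1 / 2) ^ 8 :=
      (m_pow_le hn hnm 40).trans (pow_le_pow_of_le_one (by norm_num) (by norm_num) (by norm_num))
    norm_num at h5 h6 ⊢
    linarith
  have e0 : 3 * √(n ^ 80) + 6 * m ^ 60 * n ^ 80 + 7 = 3 * n ^ 40 + 6 * n ^ 20 + 7 := by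
    rw [s3, mul_assoc, s4]
  rw [e0, s1, s2]
  have h2 : 4 * (9 * n) * (m ^ 60 * m ^ 30 * √(de * (3 * n ^ 40 + 6 * n ^ 20 + 7)) +
      m ^ 60 * (2 * n * de * n ^ 80)) ≤
      4 * (9 * n) * (m ^ 60 * m ^ 30 * (5 / 2 * n ^ 20 * t) + m ^ 60 * (2 * n * de * n ^ 80)) := by
    have : 0 ≤ 4 * (9 * n) := by linarith
    gcongr
  refine h2.trans (le_of_eq ?_)
  have e1 : n ^ 21 * m ^ 90 = m ^ 69 := nm_pow hnm 21 69
  have e2 : n ^ 82 * m ^ 60 = n ^ 22 := nm_pow' hnm 60 22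
  calc 4 * (9 * n) * (m ^ 60 * m ^ 30 * (5 / 2 * n ^ 20 * t) + m ^ 60 * (2 * n * de * n ^ 80)) =
      90 * (n ^ 21 * m ^ 90) * t + 72 * (n ^ 82 * m ^ 60) * de := by ring
    _ = _ := by rw [e1, e2]

theorem num4 : 9 * √(n ^ 2 * m ^ 60 * de) + 8 * n ^ 2 * de ≤ 15 * m ^ 29 * t := by
  have h0 := m_pos hn hnm
  have h1 : √(n ^ 2 * m ^ 60 * de) ≤ 14 / 9 * m ^ 29 * t := by
    refine sqrt_le_of_sq (by positivity) ?_
    have e1 : n ^ 2 * m ^ 60 = m ^ 58 := nm_pow hnm 2 58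
    rw [e1]
    have e3 : (14 / 9 * m ^ 29 * t) ^ 2 = m ^ 58 * (t ^ 2 * (196 / 81)) := by ring
    rw [e3]
    refine mul_le_mul_of_nonneg_left ?_ (by positivity)
    have : 0 < t ^ 2 := by positivity
    linarith
  have h2 : 8 * n ^ 2 * de ≤ m ^ 29 * t := by
    have h3 : t ^ 2 ≤ m ^ 117 * t := by
      rw [sq]; exact mul_le_mul_of_nonneg_right ht ht0.le
    have e1 : n ^ 2 * m ^ 117 = m ^ 115 := nm_pow hnm 2 115
    have h5 : m ^ 86 ≤ (1 / 2) ^ 4 :=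
      (m_pow_le hn hnm 86).trans (pow_le_pow_of_le_one (by norm_num) (by norm_num) (by norm_num))
    calc 8 * n ^ 2 * de ≤ 8 * n ^ 2 * (2 * (m ^ 117 * t)) := by
          refine mul_le_mul_of_nonneg_left (de1.trans ?_) (by positivity)
          linarith
      _ = 16 * (n ^ 2 * m ^ 117) * t := by ring
      _ = m ^ 29 * (16 * m ^ 86) * t := by rw [e1]; ring
      _ ≤ m ^ 29 * 1 * t := by
        refine mul_le_mul_of_nonneg_right (mul_le_mul_of_nonneg_left ?_ (by positivity)) ht0.le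
        norm_num at h5 ⊢
        linarith
      _ = m ^ 29 * t := by ring
  linarith

omit ht in
theorem num56 : √(n ^ 2 * de * m ^ 60 * (4 * m ^ 160)) ≤ 3 * m ^ 109 * t := by
  have h0 := m_pos hn hnm
  refine sqrt_le_of_sq (by positivity) ?_
  have e1 : n ^ 2 * m ^ 220 = m ^ 218 := nm_pow hnm 2 218
  calc n ^ 2 * de * m ^ 60 * (4 * m ^ 160) = 4 * (n ^ 2 * m ^ 220) * de := by ring
    _ = 4 * m ^ 218 * de := by rw [e1]
    _ ≤ 4 * m ^ 218 * (2 * t ^ 2) := mul_le_mul_of_nonneg_left de1 (by positivity)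
    _ = 8 * (m ^ 218 * t ^ 2) := by ring
    _ ≤ 9 * (m ^ 218 * t ^ 2) := by
      have : 0 < m ^ 218 * t ^ 2 := by positivity
      linarith
    _ = (3 * m ^ 109 * t) ^ 2 := by ring

end

theorem nphi : NphiStmt := by
  refine ⟨2, fun N hN D de r h hR => ?_⟩
  obtain ⟨D0, -, de0, de1, -, -, -, -⟩ := hR
  have hn2 : (2 : ℝ) ≤ (N : ℝ) := by exact_mod_cast hN
  have hn0 : (0 : ℝ) < (N : ℝ) := by linarith
  have hD : 0 < D := lt_of_lt_of_le (by positivity) D0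
  have hsD : 0 < √D := Real.sqrt_pos.2 hD
  have hnm : (N : ℝ) * (1 / (N : ℝ)) = 1 := mul_one_div_cancel hn0.ne'
  have ht0 : 0 < 1 / √D := by positivity
  have hs : (N : ℝ) ^ 117 ≤ √D := by
    refine Real.le_sqrt_of_sq_le ?_
    calc ((N : ℝ) ^ 117) ^ 2 = (N : ℝ) ^ 234 := by ring
      _ ≤ D := D0
  have ht : 1 / √D ≤ (1 / (N : ℝ)) ^ 117 := by
    rw [one_div_pow]
    exact one_div_le_one_div_of_le (by positivity) hs
  have hde1 : de ≤ 2 * (1 / √D) ^ 2 := by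
    rw [one_div_pow, Real.sq_sqrt hD.le]
    calc de ≤ 2 / D := de1
      _ = 2 * (1 / D) := by ring
  have e : ∀ (c : ℝ) (k : ℕ), c / (N : ℝ) ^ k = c * (1 / (N : ℝ)) ^ k := by
    intro c k; rw [one_div_pow]; ring
  have e' : ∀ c : ℝ, c / √D = c * (1 / √D) := by intro c; ring
  have g1 := num1 hn2 hnm ht0 ht de0 hde1
  have g2 := num2 hn2 hnm ht0 ht de0 hde1
  have g3 := num3 hn2 hnm ht0 ht de0 hde1
  have g4 := num4 hn2 hnm ht0 ht de0 hde1
  have g5 := num56 hn2 hnm ht0 de0 hde1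
  generalize hm : (1 / (N : ℝ)) = m at *
  generalize htt : (1 / √D) = t at *
  have hm0 : 0 < m := m_pos hn2 hnm
  simp only [prm, Prm.B1, Prm.Phi, Prm.beta2, Prm.el, Prm.kb, Prm.B4, Prm.B5, Prm.B6, e, e',
    one_mul, Nat.cast_pow]
  refine ⟨?_, g2, ?_, g4, ?_, ?_⟩
  · exact g1
  · exact g3
  · linarith
  · have h6 : 8 * m ^ 60 * (4 * m ^ 160) ≤ 33 * m ^ 220 := by
      have e6 : 8 * m ^ 60 * (4 * m ^ 160) = 32 * m ^ 220 := by ring
      have : 0 < m ^ 220 := by positivity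
      linarith
    linarith

end Pool.Agent.NIB.H50
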